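import Pool.Agent.helper16.EXC.Spec3

set_option autoImplicit false

open Finset

namespace Pool.Agent.EXC

theorem ZZM_sq (F : Type) [Field F] :
    (!![-6, -4, -1; 8, 5, 2; 3, 2, 1] : Matrix (Fin 3) (Fin 3) F) ^ 2 = !![1, 2, -3; -2, -3, 4; 1, 0, 2] := by
  rw [pow_two]
  ext i j
  fin_cases i <;> fin_cases j <;> simp [Matrix.mul_apply, Fin.sum_univ_three] <;> norm_num

theorem ZZM_cube (F : Type) [Field F] :
    (!![-6, -4, -1; 8, 5, 2; 3, 2, 1] : Matrix (Fin 3) (Fin 3) F) ^ 3 = 1 := by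
  rw [pow_succ, ZZM_sq]
  ext i j
  fin_cases i <;> fin_cases j <;> simp [Matrix.mul_apply, Fin.sum_univ_three] <;> norm_num

theorem ZZM : ZZM_stmt := by
  intro F _ h3 m h
  have h1 := congrFun (congrFun (h (Matrix.single 0 2 1) (by simp [Matrix.trace, Fin.sum_univ_three])) 0) 0
  set Z : Matrix (Fin 3) (Fin 3) F := !![-6, -4, -1; 8, 5, 2; 3, 2, 1] with hZ
  have h2 : (Z ^ m) 2 0 = 0 := by
    simp only [Matrix.mul_apply, Fin.sum_univ_three, Matrix.single_apply] at h1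
    simp at h1
    exact h1.symm
  have hm : m = 3 * (m / 3) + m % 3 := (Nat.div_add_mod m 3).symm
  have hlt : m % 3 < 3 := Nat.mod_lt _ (by norm_num)
  rw [hm, pow_add, pow_mul, ZZM_cube, one_pow, one_mul] at h2
  rcases (by omega : m % 3 = 0 ∨ m % 3 = 1 ∨ m % 3 = 2) with h0 | h0 | h0
  · exact Nat.dvd_of_mod_eq_zero h0
  · rw [h0, pow_one] at h2
    exact absurd (by simpa [hZ] using h2) h3
  · rw [h0, ZZM_sq] at h2
    simp at h2

end Pool.Agent.EXC
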